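import Pool.Agent.H73.CBE.Stmts

/-!
Board `cbe`, row GRD: a grid.
-/

set_option autoImplicit false

open Set Filter Topology

namespace Pool.CBE

/-- one real coordinate -/
private theorem grd_one (m : ℕ) (t x : ℝ) (hm : 0 < m) (htm : 1 ≤ t * m) :
    ((Finset.univ.filter fun a : Fin m => |((a : ℕ) : ℝ) / m - x| < t).card : ℝ) ≤ 3 * t * m := by
  have hm0 : (0 : ℝ) < m := by exact_mod_cast hm
  have h1 : (Finset.univ.filter fun a : Fin m => |((a : ℕ) : ℝ) / m - x| < t).card ≤
      (Finset.Icc ⌈(x - t) * m⌉ ⌊(x + t) * m⌋).card := by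
    refine Finset.card_le_card_of_injOn (fun a => (((a : ℕ)) : ℤ)) ?_ ?_
    · intro a ha
      rw [Finset.mem_coe, Finset.mem_filter] at ha
      have h2 := abs_lt.1 ha.2
      rw [Finset.mem_coe, Finset.mem_Icc]
      constructor
      · rw [Int.ceil_le]
        have h3 : x - t < ((a : ℕ) : ℝ) / m := by linarith [h2.1]
        rw [lt_div_iff₀ hm0] at h3
        push_cast
        exact h3.le
      · rw [Int.le_floor]
        have h3 : ((a : ℕ) : ℝ) / m < x + t := by linarith [h2.2]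
        rw [div_lt_iff₀ hm0] at h3
        push_cast
        exact h3.le
    · intro a _ b _ hab
      have : ((a : ℕ) : ℤ) = ((b : ℕ) : ℤ) := hab
      exact Fin.ext (by exact_mod_cast this)
  rw [Int.card_Icc] at h1
  have h2 : ((⌊(x + t) * m⌋ + 1 - ⌈(x - t) * m⌉ : ℤ) : ℝ) ≤ 3 * t * m := by
    push_cast
    have h3 := Int.floor_le ((x + t) * m)
    have h4 := Int.le_ceil ((x - t) * m)
    linarith
  have h5 : ((Finset.univ.filter fun a : Fin m => |((a : ℕ) : ℝ) / m - x| < t).card : ℝ) ≤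
      (((⌊(x + t) * m⌋ + 1 - ⌈(x - t) * m⌉).toNat : ℕ) : ℝ) := by exact_mod_cast h1
  refine h5.trans ?_
  rcases le_total 0 (⌊(x + t) * m⌋ + 1 - ⌈(x - t) * m⌉) with h6 | h6
  · have h7 : (((⌊(x + t) * m⌋ + 1 - ⌈(x - t) * m⌉).toNat : ℕ) : ℝ) =
        ((⌊(x + t) * m⌋ + 1 - ⌈(x - t) * m⌉ : ℤ) : ℝ) := by
      exact_mod_cast congrArg (Int.cast : ℤ → ℝ) (Int.toNat_of_nonneg h6)
    rw [h7]
    exact h2
  · rw [Int.toNat_of_nonpos h6]
    push_cast
    linarith

theorem GRD_thm : GRDStmt := by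
  classical
  intro n t ht
  obtain ⟨m, hm, htm⟩ : ∃ m : ℕ, 0 < m ∧ 1 ≤ t * m := by
    refine ⟨⌈1 / t⌉₊, Nat.ceil_pos.2 (by positivity), ?_⟩
    have h := Nat.le_ceil (1 / t)
    rw [div_le_iff₀ ht] at h
    linarith
  have hm0 : (0 : ℝ) < m := by exact_mod_cast hm
  set I := Fin n → Fin m × Fin m with hI
  let e : Fin (Fintype.card I) ≃ I := (Fintype.equivFin I).symm
  have : NeZero m := ⟨hm.ne'⟩
  have : Nonempty I := ⟨fun _ => (0, 0)⟩
  have hcard : Fintype.card I = (m * m) ^ n := by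
    show Fintype.card (Fin n → Fin m × Fin m) = _
    rw [Fintype.card_fun, Fintype.card_prod, Fintype.card_fin, Fintype.card_fin]
  let G : I → E n := fun v => WithLp.toLp 2 fun j =>
    (((((v j).1 : ℕ) : ℝ) / m : ℝ) : ℂ) + (((((v j).2 : ℕ) : ℝ) / m : ℝ) : ℂ) * Complex.I
  have hGre : ∀ v j, (G v j).re = (((v j).1 : ℕ) : ℝ) / m := by
    intro v j
    show ((((((v j).1 : ℕ) : ℝ) / m : ℝ) : ℂ) +
      (((((v j).2 : ℕ) : ℝ) / m : ℝ) : ℂ) * Complex.I).re = _
    rw [Complex.add_re, Complex.re_ofReal_mul, Complex.I_re, mul_zero, add_zero,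
      Complex.ofReal_re]
  have hGim : ∀ v j, (G v j).im = (((v j).2 : ℕ) : ℝ) / m := by
    intro v j
    show ((((((v j).1 : ℕ) : ℝ) / m : ℝ) : ℂ) +
      (((((v j).2 : ℕ) : ℝ) / m : ℝ) : ℂ) * Complex.I).im = _
    rw [Complex.add_im, Complex.im_ofReal_mul, Complex.I_im, mul_one, Complex.ofReal_im, zero_add]
  refine ⟨Fintype.card I, Fintype.card_pos, fun i => G (e i), ?_, ?_⟩
  · intro i
    have hc : ∀ j, ‖G (e i) j‖ ≤ 2 := by
      intro j
      refine (Complex.norm_le_abs_re_add_abs_im _).trans ?_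
      rw [hGre, hGim, abs_of_nonneg (by positivity), abs_of_nonneg (by positivity)]
      have h1 : ((((e i j).1 : ℕ) : ℝ)) / m ≤ 1 := by
        rw [div_le_one hm0]
        exact_mod_cast (e i j).1.2.le
      have h2 : ((((e i j).2 : ℕ) : ℝ)) / m ≤ 1 := by
        rw [div_le_one hm0]
        exact_mod_cast (e i j).2.2.le
      linarith
    show ‖G (e i)‖ ≤ 2 * (n : ℝ)
    rw [EuclideanSpace.norm_eq]
    apply Real.sqrt_le_iff.2
    refine ⟨by positivity, ?_⟩
    have h1 : ∑ j, ‖G (e i) j‖ ^ 2 ≤ ∑ _j : Fin n, (4 : ℝ) := by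
      refine Finset.sum_le_sum fun j _ => ?_
      have := hc j
      nlinarith [norm_nonneg (G (e i) j)]
    rw [Finset.sum_const, Finset.card_univ, Fintype.card_fin, nsmul_eq_mul] at h1
    refine h1.trans ?_
    rcases Nat.eq_zero_or_pos n with rfl | hn
    · simp
    · have h2 : (1 : ℝ) ≤ n := by exact_mod_cast hn
      nlinarith
  · intro b
    have h1 : Nat.card {i : Fin (Fintype.card I) // ‖G (e i) - b‖ < t} ≤
        (Fintype.piFinset fun j : Fin n =>
          (Finset.univ.filter fun a : Fin m => |((a : ℕ) : ℝ) / m - (b j).re| < t) ×ˢ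
          (Finset.univ.filter fun a : Fin m => |((a : ℕ) : ℝ) / m - (b j).im| < t)).card := by
      rw [Nat.card_eq_fintype_card, Fintype.card_subtype]
      refine Finset.card_le_card_of_injOn e ?_ e.injective.injOn
      intro i hi
      rw [Finset.mem_coe, Finset.mem_filter] at hi
      rw [Finset.mem_coe, Fintype.mem_piFinset]
      intro j
      have h2 : ‖(G (e i) - b) j‖ < t := lt_of_le_of_lt (PiLp.norm_apply_le _ j) hi.2
      have h3 : (G (e i) - b) j = G (e i) j - b j := rfl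
      rw [h3] at h2
      rw [Finset.mem_product, Finset.mem_filter, Finset.mem_filter]
      refine ⟨⟨Finset.mem_univ _, ?_⟩, ⟨Finset.mem_univ _, ?_⟩⟩
      · have h4 := lt_of_le_of_lt (Complex.abs_re_le_norm _) h2
        rw [Complex.sub_re, hGre] at h4
        exact h4
      · have h4 := lt_of_le_of_lt (Complex.abs_im_le_norm _) h2
        rw [Complex.sub_im, hGim] at h4
        exact h4
    rw [Fintype.card_piFinset] at h1
    have h2 : (Nat.card {i : Fin (Fintype.card I) // ‖G (e i) - b‖ < t} : ℝ) ≤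
        ∏ _j : Fin n, ((3 * t * m) * (3 * t * m)) := by
      refine le_trans (Nat.cast_le.2 h1) ?_
      rw [Nat.cast_prod]
      refine Finset.prod_le_prod (fun j _ => Nat.cast_nonneg _) fun j _ => ?_
      rw [Finset.card_product, Nat.cast_mul]
      exact mul_le_mul (grd_one m t _ hm htm) (grd_one m t _ hm htm) (Nat.cast_nonneg _)
        (by positivity)
    refine h2.trans (le_of_eq ?_)
    rw [Finset.prod_const, Finset.card_univ, Fintype.card_fin, hcard]
    push_cast
    rw [pow_mul, ← mul_pow]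
    congr 1
    ring

end Pool.CBE
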